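import Mathlib
import Pool.Agent.Lib.MP_00e59b_an.Defs
import Pool.Agent.Lib.MP_00e59b_an.Lower
import Pool.Agent.Lib.MP_00e59b_an.Quasi
import Pool.Agent.Lib.MP_00e59b_an.Curve

/-!
A quasiregular map `f` of a solid cylinder `Ω ⊂ ℝ³` into `ℝ³` for which the image `f(B_f)` of the
branch set has Nagata dimension at least `2 = n - 1`.

The map is `f = P ∘ W`, where `W (t, w) = (t, w ^ 2 / |w|)` is the winding map around the axis
`ℝ × {0}` and `P (t, u, v) = (Q (t + i u), v)` with the holomorphic immersion
`Q z = exp (i z) + (1 / 4) exp (i √2 z)` of the strip `|Im z| < 1`.  The branch set contains the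
axis and its image contains the curve `Q(ℝ) × {0}`, which is dense in a planar annulus.
-/

set_option autoImplicit false

open Set
open Pool.Agent.Lib.MP_00e59b_an

namespace Pool.Agent.Results.MP_00e59b_an.BranchImage

/-- **Theorem.** There are a domain `Ω ⊂ ℝ³` and a quasiregular map `f : Ω → ℝ³` such that the
Nagata dimension of `f(B_f)` is at least `2`. -/
theorem result : ∃ (Ω : Set (E 3)) (f : E 3 → E 3),
    IsOpen Ω ∧ IsConnected Ω ∧ IsQuasiregular Ω f ∧ 2 ≤ nagataDim (f '' branchSet Ω f) := by
  refine ⟨Om, ff, isOpen_Om, isConnected_Om, isQuasiregular_ff, ?_⟩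
  have h : ¬ NagataDimLE (ff '' branchSet Om ff) 1 := by
    refine not_nagataDimLE_one (ℓ := 1 / 8) (by norm_num) (fun u v => pt (1 + u) v 0) ?_ ?_ ?_ ?_
    · intro u v u' v'
      rw [EuclideanSpace.dist_eq, Fin.sum_univ_three]
      simp only [pt_zero, pt_one, pt_two, dist_self, Real.dist_eq, sq_abs]
      rw [Real.sqrt_le_iff]
      refine ⟨by positivity, ?_⟩
      have h1 : (1 + u - (1 + u')) = u - u' := by ring
      rw [h1, ← sq_abs (u - u'), ← sq_abs (v - v')]
      nlinarith [abs_nonneg (u - u'), abs_nonneg (v - v'),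
        mul_nonneg (abs_nonneg (u - u')) (abs_nonneg (v - v'))]
    · intro u v u' v'
      rw [EuclideanSpace.dist_eq, Fin.sum_univ_three]
      simp only [pt_zero, pt_one, pt_two, dist_self, Real.dist_eq, sq_abs]
      apply Real.le_sqrt_of_sq_le
      have h1 : (1 + u - (1 + u')) = u - u' := by ring
      rw [h1, sq_abs]
      nlinarith [sq_nonneg (v - v')]
    · intro u v u' v'
      rw [EuclideanSpace.dist_eq, Fin.sum_univ_three]
      simp only [pt_zero, pt_one, pt_two, dist_self, Real.dist_eq, sq_abs]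
      apply Real.le_sqrt_of_sq_le
      rw [sq_abs]
      nlinarith [sq_nonneg (1 + u - (1 + u'))]
    · intro u hu v hv
      exact square_subset_closure hu hv
  have h2 := le_nagataDim_of_not h
  have h3 : ((1 : ℕ) + 1 : ℕ∞) = 2 := by norm_num
  rw [← h3]
  exact h2

end Pool.Agent.Results.MP_00e59b_an.BranchImage
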